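import Mathlib

set_option autoImplicit false
set_option linter.unusedVariables false

open Polynomial IntermediateField

namespace Pool.Agent.Results.MP_ff1ab7_nt.MaximalIndependentPowers

theorem minpoly_eq (y : ℝ) (hy : 0 < y) (b : ℕ) (hb : 0 < b) (q : ℚ) (hq : y ^ b = q)
    (hirr : ∀ r : ℚ, y ≠ r) : ∃ d : ℕ, 2 ≤ d ∧ ∃ c : ℚ, minpoly ℚ y = X ^ d - C c := by
  classical
  have hex : ∃ d : ℕ, 0 < d ∧ ∃ c : ℚ, y ^ d = c := ⟨b, hb, q, hq⟩
  obtain ⟨hd0, c, hc⟩ := Nat.find_spec hex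
  set d := Nat.find hex with hd
  have hmin : ∀ e, 0 < e → (∃ c : ℚ, y ^ e = c) → d ≤ e := fun e he h => Nat.find_min' hex ⟨he, h⟩
  have hd2 : 2 ≤ d := by
    by_contra h
    have h1 : d = 1 := by omega
    rw [h1, pow_one] at hc
    exact hirr c hc
  refine ⟨d, hd2, c, ?_⟩
  have hmon : (X ^ d - C c : ℚ[X]).Monic := monic_X_pow_sub_C c (by omega)
  have hev : aeval y (X ^ d - C c : ℚ[X]) = 0 := by
    simp [hc]
  have hint : IsIntegral ℚ y := ⟨_, hmon, hev⟩
  have hdvd : minpoly ℚ y ∣ X ^ d - C c := minpoly.dvd ℚ y hev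
  have hPm : (minpoly ℚ y).Monic := minpoly.monic hint
  set P := minpoly ℚ y with hP
  have hPpos : 0 < P.natDegree := minpoly.natDegree_pos hint
  -- constant coefficient
  have hsplit : (P.map (algebraMap ℚ ℂ)).Splits := IsAlgClosed.splits _
  have hmonC : (P.map (algebraMap ℚ ℂ)).Monic := hPm.map _
  have hroots : ∀ z ∈ (P.map (algebraMap ℚ ℂ)).roots, ‖z‖ = y := by
    intro z hz
    have h1 : (P.map (algebraMap ℚ ℂ)).IsRoot z := (mem_roots'.1 hz).2
    have h2 : eval z ((X ^ d - C c : ℚ[X]).map (algebraMap ℚ ℂ)) = 0 := by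
      obtain ⟨R, hR⟩ := hdvd
      rw [hR, Polynomial.map_mul, eval_mul, h1.eq_zero, zero_mul]
    have h3 : z ^ d = (c : ℂ) := by
      simp at h2
      linear_combination h2
    have h4 : ‖z‖ ^ d = y ^ d := by
      rw [← norm_pow, h3, hc]
      have h5 : (0 : ℝ) < c := by rw [← hc]; positivity
      have : ((c : ℂ)) = ((c : ℝ) : ℂ) := by push_cast; rfl
      rw [this, Complex.norm_real, Real.norm_of_nonneg h5.le]
    exact (pow_left_inj₀ (norm_nonneg z) hy.le (by omega)).1 h4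
  have hcoef : ‖((P.coeff 0 : ℚ) : ℂ)‖ = y ^ P.natDegree := by
    have h1 := hsplit.coeff_zero_eq_prod_roots_of_monic hmonC
    rw [coeff_map] at h1
    have h2 : ((P.coeff 0 : ℚ) : ℂ) = (algebraMap ℚ ℂ) (P.coeff 0) := rfl
    rw [h2, h1, norm_mul, norm_pow, norm_neg, norm_one, one_pow, one_mul]
    have h3 : ∀ s : Multiset ℂ, (∀ z ∈ s, ‖z‖ = y) → ‖s.prod‖ = y ^ (Multiset.card s) := by
      intro s
      induction s using Multiset.induction_on with
      | empty => intro _; simp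
      | cons a s ih =>
        intro h
        rw [Multiset.prod_cons, norm_mul, ih (fun z hz => h z (Multiset.mem_cons_of_mem hz)),
          h a (Multiset.mem_cons_self a s), Multiset.card_cons, pow_succ, mul_comm]
    rw [h3 _ hroots, ← hsplit.natDegree_eq_card_roots, natDegree_map]
  have hdeg : d ≤ P.natDegree := by
    apply hmin _ hPpos
    refine ⟨|P.coeff 0|, ?_⟩
    rw [← hcoef]
    have : ((P.coeff 0 : ℚ) : ℂ) = (((P.coeff 0 : ℚ) : ℝ) : ℂ) := by push_cast; rfl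
    rw [this, Complex.norm_real, Real.norm_eq_abs]
    push_cast
    rfl
  have hdeg2 : (X ^ d - C c : ℚ[X]).natDegree = d := natDegree_X_pow_sub_C
  exact (eq_of_monic_of_dvd_of_natDegree_le hPm hmon hdvd (by rw [hdeg2]; exact hdeg)).symm ▸ rfl

theorem trace_zero (K : IntermediateField ℚ ℝ) [FiniteDimensional ℚ K] (y : K)
    (hy : 0 < (y : ℝ)) (b : ℕ) (hb : 0 < b) (q : ℚ) (hq : (y : ℝ) ^ b = q)
    (hirr : ∀ r : ℚ, (y : ℝ) ≠ r) : Algebra.trace ℚ K y = 0 := by
  obtain ⟨d, hd, c, hmp⟩ := minpoly_eq (y : ℝ) hy b hb q hq hirr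
  have h1 : minpoly ℚ y = X ^ d - C c := by
    rw [← hmp]
    exact (minpoly.algebraMap_eq (A := ℚ) (B := K) (B' := ℝ) (algebraMap K ℝ).injective y).symm
  rw [trace_eq_finrank_mul_minpoly_nextCoeff, h1]
  have h2 : (X ^ d - C c : ℚ[X]).nextCoeff = 0 := by
    have hdeg : (X ^ d - C c : ℚ[X]).natDegree = d := natDegree_X_pow_sub_C
    rw [nextCoeff_of_natDegree_pos (by rw [hdeg]; omega), hdeg, coeff_sub, coeff_X_pow, coeff_C]
    rw [if_neg (by omega), if_neg (by omega), sub_zero]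
  rw [h2, neg_zero, mul_zero]

/-- `m` and `n` are equal up to a `b`-th power of a rational number. -/
def SameClass (b m n : ℕ) : Prop := ∃ u v : ℕ, 0 < u ∧ 0 < v ∧ u ^ b * m = v ^ b * n

/-- The positive integers not divisible by the `b`-th power of any integer `d > 1`. -/
def PowerFree (b : ℕ) : Set ℕ := {n | 0 < n ∧ ∀ d : ℕ, d ^ b ∣ n → d = 1}

theorem rat_case (a b : ℕ) (hb : 2 ≤ b) (hab : Nat.Coprime a b) (m n : ℕ) (hm : 0 < m)
    (hn : 0 < n) (r : ℚ) (hr : 0 < r) (h : r ^ b = ((m : ℚ) / n) ^ a) : SameClass b m n := by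
  have hbez : (a : ℤ) * Nat.gcdA a b + (b : ℤ) * Nat.gcdB a b = 1 := by
    have := Nat.gcd_eq_gcd_ab a b
    rw [Nat.Coprime] at hab
    rw [hab] at this
    exact_mod_cast this.symm
  set s := Nat.gcdA a b
  set t := Nat.gcdB a b
  set x : ℚ := (m : ℚ) / n with hx
  have hxpos : 0 < x := by positivity
  have hx1 : x = (r ^ s * x ^ t) ^ (b : ℤ) := by
    have h1 : (r ^ s * x ^ t) ^ (b : ℤ) = (r ^ (b : ℤ)) ^ s * x ^ ((b : ℤ) * t) := by
      rw [mul_zpow, ← zpow_mul, ← zpow_mul, ← zpow_mul, mul_comm s, mul_comm t]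
    have h2 : (r ^ (b : ℤ)) = x ^ (a : ℤ) := by
      rw [zpow_natCast, zpow_natCast]; exact h
    rw [h1, h2, ← zpow_mul, ← zpow_add₀ hxpos.ne', hbez, zpow_one]
  set w : ℚ := r ^ s * x ^ t with hw
  have hwpos : 0 < w := by positivity
  rw [zpow_natCast] at hx1
  refine ⟨w.den, w.num.toNat, w.den_pos, ?_, ?_⟩
  · have := Rat.num_pos.2 hwpos
    omega
  · have hnum : ((w.num.toNat : ℕ) : ℚ) = w.num := by
      have := Rat.num_pos.2 hwpos
      exact_mod_cast Int.toNat_of_nonneg this.le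
    have hwd : w * w.den = w.num := Rat.mul_den_eq_num w
    have hnq : (n : ℚ) ≠ 0 := by positivity
    have h3 : (m : ℚ) = w ^ b * n := by
      rw [← hx1, hx]; field_simp
    have h4 : ((w.den : ℚ)) ^ b * m = (w.num.toNat : ℚ) ^ b * n := by
      rw [h3, hnum, ← hwd, mul_pow]; ring
    exact_mod_cast h4

theorem pow_b (a b : ℕ) (hb : 2 ≤ b) (n : ℕ) :
    ((n : ℝ) ^ ((a : ℝ) / b)) ^ b = (n : ℝ) ^ a := by
  have hb0 : (b : ℝ) ≠ 0 := by positivity
  rw [← Real.rpow_natCast ((n : ℝ) ^ ((a : ℝ) / b)) b, ← Real.rpow_mul (Nat.cast_nonneg n),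
    div_mul_cancel₀ _ hb0, Real.rpow_natCast]

theorem indep_of_classes (a b : ℕ) (hb : 2 ≤ b) (hab : Nat.Coprime a b)
    (S : Set ℕ) (hS : ∀ n ∈ S, 0 < n)
    (hcl : ∀ m ∈ S, ∀ n ∈ S, SameClass b m n → m = n) :
    LinearIndependent ℚ (fun n : S => ((n : ℕ) : ℝ) ^ ((a : ℝ) / b)) := by
  classical
  rw [linearIndependent_iff']
  intro T g hsum i₀ hi₀
  set f : S → ℝ := fun n => ((n : ℕ) : ℝ) ^ ((a : ℝ) / b) with hf
  have hfpos : ∀ n : S, 0 < f n := fun n => by
    have : (0 : ℝ) < (n : ℕ) := by exact_mod_cast hS n n.2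
    exact Real.rpow_pos_of_pos this _
  have hfb : ∀ n : S, (f n) ^ b = ((n : ℕ) : ℝ) ^ a := fun n => pow_b a b hb n
  set K : IntermediateField ℚ ℝ := IntermediateField.adjoin ℚ (f '' (T : Set S)) with hK
  have hfin : Finite (f '' (T : Set S)) := (T.finite_toSet.image f).to_subtype
  have hint : ∀ x ∈ f '' (T : Set S), IsIntegral ℚ x := by
    rintro x ⟨n, _, rfl⟩
    apply IsIntegral.of_pow (n := b) (by omega)
    rw [hfb n]
    have : ((n : ℕ) : ℝ) ^ a = algebraMap ℚ ℝ (((n : ℕ) : ℚ) ^ a) := by simp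
    rw [this]
    exact isIntegral_algebraMap
  have : FiniteDimensional ℚ K := IntermediateField.finiteDimensional_adjoin hint
  have hmem : ∀ n ∈ T, f n ∈ K := fun n hn =>
    IntermediateField.subset_adjoin ℚ _ ⟨n, hn, rfl⟩
  -- the quotients
  let y : T → K := fun n => ⟨f n.1 / f i₀, K.div_mem (hmem n.1 n.2) (hmem i₀ hi₀)⟩
  have hrel : ∑ n : T, g n.1 • y n = 0 := by
    apply Subtype.ext
    have h1 : ((∑ n : T, g n.1 • y n : K) : ℝ) = ∑ n : T, g n.1 • (f n.1 / f i₀) := by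
      rw [IntermediateField.coe_sum]
      rfl
    rw [h1]
    have h2 : ∑ n : T, g n.1 • (f n.1 / f i₀) = (∑ n ∈ T, g n • f n) / f i₀ := by
      rw [Finset.sum_div, ← Finset.sum_coe_sort T (fun n => g n • f n / f i₀)]
      apply Finset.sum_congr rfl
      intro n _
      rw [smul_div_assoc]
    rw [h2, hsum, zero_div]
    rfl
  have htr : ∀ n : T, n.1 ≠ i₀ → Algebra.trace ℚ K (y n) = 0 := by
    intro n hn
    have hypos : 0 < ((y n : K) : ℝ) := div_pos (hfpos _) (hfpos _)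
    have hyb : ((y n : K) : ℝ) ^ b = (((((n.1 : ℕ) : ℚ) / ((i₀ : ℕ) : ℚ)) ^ a : ℚ) : ℝ) := by
      show (f n.1 / f i₀) ^ b = _
      rw [div_pow, hfb, hfb]
      push_cast
      rw [div_pow]
    refine trace_zero K (y n) hypos b (by omega) _ hyb ?_
    intro r hr
    apply hn
    apply Subtype.ext
    apply hcl _ n.1.2 _ i₀.2
    have hrpos : 0 < r := by
      rw [hr] at hypos; exact_mod_cast hypos
    refine rat_case a b hb hab _ _ (hS _ n.1.2) (hS _ i₀.2) r hrpos ?_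
    rw [hr] at hyb
    exact_mod_cast hyb
  have h3 := congrArg (Algebra.trace ℚ K) hrel
  rw [map_sum, map_zero, Finset.sum_eq_single (⟨i₀, hi₀⟩ : T)] at h3
  · have h4 : y ⟨i₀, hi₀⟩ = 1 := by
      apply Subtype.ext
      show f i₀ / f i₀ = 1
      exact div_self (hfpos i₀).ne'
    rw [h4, map_smul, smul_eq_mul] at h3
    have h5 : Algebra.trace ℚ K 1 = (Module.finrank ℚ K : ℚ) := by
      have := Algebra.trace_algebraMap (R := ℚ) (S := K) (1 : ℚ)
      simpa using this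
    rw [h5] at h3
    have h6 : (Module.finrank ℚ K : ℚ) ≠ 0 := by
      have : 0 < Module.finrank ℚ K := Module.finrank_pos
      positivity
    exact (mul_eq_zero.1 h3).resolve_right h6
  · intro n _ hn
    rw [map_smul, htr n (fun h => hn (Subtype.ext h)), smul_zero]
  · intro h
    exact absurd (Finset.mem_univ _) h

theorem classes_of_indep (a b : ℕ) (hb : 2 ≤ b) (S : Set ℕ) (hS : ∀ n ∈ S, 0 < n)
    (hli : LinearIndependent ℚ (fun n : S => ((n : ℕ) : ℝ) ^ ((a : ℝ) / b))) :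
    ∀ m ∈ S, ∀ n ∈ S, SameClass b m n → m = n := by
  rintro m hm n hn ⟨u, v, hu, hv, h⟩
  have hb0 : (b : ℝ) ≠ 0 := by positivity
  have key : ∀ u m : ℕ, (((u ^ b * m : ℕ) : ℝ)) ^ ((a : ℝ) / b)
      = (u : ℝ) ^ a * (m : ℝ) ^ ((a : ℝ) / b) := by
    intro u m
    push_cast
    rw [Real.mul_rpow (by positivity) (by positivity), ← Real.rpow_natCast (u : ℝ) b,
      ← Real.rpow_mul (Nat.cast_nonneg u), mul_div_cancel₀ _ hb0, Real.rpow_natCast]
  have h1 : (u : ℝ) ^ a * (m : ℝ) ^ ((a : ℝ) / b) = (v : ℝ) ^ a * (n : ℝ) ^ ((a : ℝ) / b) := by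
    rw [← key, ← key, h]
  have h2 := hli.eq_of_smul_apply_eq_smul_apply ((u : ℚ) ^ a) ((v : ℚ) ^ a) ⟨m, hm⟩ ⟨n, hn⟩
    (by positivity) (by
      show ((u : ℚ) ^ a) • ((m : ℝ) ^ ((a : ℝ) / b)) = ((v : ℚ) ^ a) • ((n : ℝ) ^ ((a : ℝ) / b))
      rw [Rat.smul_def, Rat.smul_def]
      push_cast
      exact h1)
  exact congrArg Subtype.val h2

theorem powerFree_classes (b : ℕ) (hb : 2 ≤ b) :
    ∀ m ∈ PowerFree b, ∀ n ∈ PowerFree b, SameClass b m n → m = n := by
  rintro m ⟨hm, hmf⟩ n ⟨hn, hnf⟩ ⟨u, v, hu, hv, h⟩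
  obtain ⟨g, u', v', hg, hcop, rfl, rfl⟩ := Nat.exists_coprime' (m := u) (n := v)
    (Nat.gcd_pos_of_pos_left _ hu)
  have hgb : 0 < g ^ b := by positivity
  have h1 : u' ^ b * m = v' ^ b * n := by
    have : g ^ b * (u' ^ b * m) = g ^ b * (v' ^ b * n) := by
      rw [mul_pow, mul_pow] at h
      linarith
    exact Nat.eq_of_mul_eq_mul_left hgb this
  have hc : Nat.Coprime (u' ^ b) (v' ^ b) := hcop.pow b b
  have hu1 : u' = 1 := hnf u' (hc.dvd_of_dvd_mul_left (h1 ▸ Dvd.intro _ rfl))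
  have hv1 : v' = 1 := hmf v' (hc.symm.dvd_of_dvd_mul_left (h1.symm ▸ Dvd.intro _ rfl))
  subst hu1 hv1
  simpa using h1

theorem exists_kernel (b : ℕ) (hb : 2 ≤ b) (n : ℕ) (hn : 0 < n) :
    ∃ k f : ℕ, 0 < k ∧ f ∈ PowerFree b ∧ n = k ^ b * f := by
  induction n using Nat.strong_induction_on with
  | _ n ih =>
    by_cases h : n ∈ PowerFree b
    · exact ⟨1, n, one_pos, h, by simp⟩
    · have h1 : ∃ d : ℕ, d ^ b ∣ n ∧ d ≠ 1 := by
        by_contra hcon
        push Not at hcon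
        exact h ⟨hn, hcon⟩
      obtain ⟨d, ⟨e, he⟩, hd1⟩ := h1
      have hd0 : d ≠ 0 := by
        rintro rfl
        rw [zero_pow (by omega)] at he
        omega
      have hd2 : 2 ≤ d := by omega
      have he0 : 0 < e := by
        rcases Nat.eq_zero_or_pos e with h0 | h0
        · subst h0; omega
        · exact h0
      have hdb : 2 ≤ d ^ b := by
        calc 2 ≤ d := hd2
          _ = d ^ 1 := (pow_one d).symm
          _ ≤ d ^ b := Nat.pow_le_pow_right (by omega) (by omega)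
      have hen : e < n := by
        rw [he]; nlinarith
      obtain ⟨k, f, hk, hf, hef⟩ := ih e hen he0
      exact ⟨d * k, f, by positivity, hf, by rw [he, hef, mul_pow, mul_assoc]⟩

theorem optimal (b : ℕ) (hb : 2 ≤ b) (S : Set ℕ) (hS : ∀ n ∈ S, 0 < n)
    (hcl : ∀ m ∈ S, ∀ n ∈ S, SameClass b m n → m = n) (M : ℕ) :
    (S ∩ Set.Icc 1 M).ncard ≤ (PowerFree b ∩ Set.Icc 1 M).ncard := by
  classical
  choose! k f hk hf hkf using fun n (hn : 0 < n) => exists_kernel b hb n hn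
  apply Set.ncard_le_ncard_of_injOn f
  · rintro n ⟨hnS, hn1, hnM⟩
    have hn := hS n hnS
    refine ⟨hf n hn, (hf n hn).1, ?_⟩
    have h1 := hkf n hn
    have h2 : 0 < k n ^ b := by
      have := hk n hn
      positivity
    calc f n ≤ k n ^ b * f n := Nat.le_mul_of_pos_left _ h2
      _ = n := h1.symm
      _ ≤ M := hnM
  · rintro m ⟨hmS, _⟩ n ⟨hnS, _⟩ hmn
    have hm := hS m hmS
    have hn := hS n hnS
    apply hcl m hmS n hnS
    refine ⟨k n, k m, hk n hn, hk m hm, ?_⟩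
    have h1 := hkf m hm
    have h2 := hkf n hn
    have hmn' : f m = f n := hmn
    calc k n ^ b * m = k n ^ b * (k m ^ b * f m) := by rw [← h1]
      _ = k m ^ b * (k n ^ b * f n) := by rw [hmn']; ring
      _ = k m ^ b * n := by rw [← h2]

theorem sum_inv_sq (K : ℕ) (hK : 2 ≤ K) :
    ∑ d ∈ Finset.Icc 2 K, (1 : ℝ) / (d : ℝ) ^ 2 ≤ 3 / 4 - 1 / K := by
  induction K, hK using Nat.le_induction with
  | base => norm_num
  | succ K hK ih =>
    rw [Finset.sum_Icc_succ_top (by omega)]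
    have hK0 : (0 : ℝ) < K := by positivity
    have h1 : (1 : ℝ) / ((K + 1 : ℕ) : ℝ) ^ 2 ≤ 1 / K - 1 / ((K + 1 : ℕ) : ℝ) := by
      push_cast
      rw [div_sub_div _ _ hK0.ne' (by positivity), div_le_div_iff₀ (by positivity) (by positivity)]
      nlinarith
    linarith

theorem density (b : ℕ) (hb : 2 ≤ b) (M : ℕ) :
    (1 / 4 : ℝ) * M ≤ ((PowerFree b ∩ Set.Icc 1 M).ncard : ℝ) := by
  classical
  rcases Nat.lt_or_ge M 2 with hM | hM
  · rcases Nat.eq_zero_or_pos M with rfl | h0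
    · simp
    · have : M = 1 := by omega
      subst this
      have h1 : (1 : ℕ) ∈ PowerFree b ∩ Set.Icc 1 1 := by
        refine ⟨⟨one_pos, fun d hd => ?_⟩, by simp⟩
        have := Nat.dvd_one.1 hd
        exact (Nat.pow_eq_one.1 this).resolve_right (by omega)
      have h2 : 0 < (PowerFree b ∩ Set.Icc 1 1).ncard :=
        (Set.ncard_pos ((Set.finite_Icc 1 1).subset Set.inter_subset_right)).2 ⟨1, h1⟩
      have h3 : (1 : ℝ) ≤ ((PowerFree b ∩ Set.Icc 1 1).ncard : ℝ) := by exact_mod_cast h2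
      push_cast
      linarith
  · have hsub : (Finset.Ioc 0 M : Finset ℕ) ⊆
        (Finset.Ioc 0 M).filter (fun n => n ∈ PowerFree b) ∪
          (Finset.Icc 2 M).biUnion (fun d => (Finset.Ioc 0 M).filter (fun n => d ^ 2 ∣ n)) := by
      intro n hn
      rw [Finset.mem_Ioc] at hn
      rw [Finset.mem_union, Finset.mem_filter, Finset.mem_biUnion]
      by_cases h : n ∈ PowerFree b
      · left; exact ⟨Finset.mem_Ioc.2 hn, h⟩
      · right
        have h1 : ∃ d : ℕ, d ^ b ∣ n ∧ d ≠ 1 := by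
          by_contra hcon
          push Not at hcon
          exact h ⟨hn.1, hcon⟩
        obtain ⟨d, hd, hd1⟩ := h1
        have hd0 : d ≠ 0 := by
          rintro rfl
          rw [zero_pow (by omega), zero_dvd_iff] at hd
          omega
        have hd2 : d ^ 2 ∣ n := (pow_dvd_pow d hb).trans hd
        have hdM : d ≤ M := by
          have h2 : d ^ 2 ≤ n := Nat.le_of_dvd hn.1 hd2
          nlinarith
        exact ⟨d, Finset.mem_Icc.2 ⟨by omega, hdM⟩,
          Finset.mem_filter.2 ⟨Finset.mem_Ioc.2 hn, hd2⟩⟩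
    have hcard := Finset.card_le_card hsub
    have h1 : (M : ℝ) ≤ (((Finset.Ioc 0 M).filter (fun n => n ∈ PowerFree b)).card : ℝ)
        + ∑ d ∈ Finset.Icc 2 M, ((M / d ^ 2 : ℕ) : ℝ) := by
      have h2 : M ≤ ((Finset.Ioc 0 M).filter (fun n => n ∈ PowerFree b)).card
          + ∑ d ∈ Finset.Icc 2 M, (M / d ^ 2) := by
        calc M = (Finset.Ioc 0 M).card := by simp
          _ ≤ _ := hcard
          _ ≤ _ := Finset.card_union_le _ _
          _ ≤ _ := by
            gcongr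
            refine Finset.card_biUnion_le.trans ?_
            apply Finset.sum_le_sum
            intro d _
            rw [Nat.Ioc_filter_dvd_card_eq_div]
      exact_mod_cast h2
    have h3 : ∑ d ∈ Finset.Icc 2 M, ((M / d ^ 2 : ℕ) : ℝ) ≤ (M : ℝ) * (3 / 4) := by
      calc ∑ d ∈ Finset.Icc 2 M, ((M / d ^ 2 : ℕ) : ℝ)
          ≤ ∑ d ∈ Finset.Icc 2 M, (M : ℝ) * (1 / (d : ℝ) ^ 2) := by
            apply Finset.sum_le_sum
            intro d _
            have := @Nat.cast_div_le ℝ _ _ _ M (d ^ 2)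
            push_cast at this
            rw [mul_one_div]
            exact this
        _ = (M : ℝ) * ∑ d ∈ Finset.Icc 2 M, (1 / (d : ℝ) ^ 2) := by rw [Finset.mul_sum]
        _ ≤ (M : ℝ) * (3 / 4) := by
            gcongr
            have := sum_inv_sq M hM
            have h4 : (0 : ℝ) ≤ 1 / M := by positivity
            linarith
    have h5 : (PowerFree b ∩ Set.Icc 1 M).ncard
        = ((Finset.Ioc 0 M).filter (fun n => n ∈ PowerFree b)).card := by
      rw [← Set.ncard_coe_finset]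
      congr 1
      ext n
      simp only [Set.mem_inter_iff, Set.mem_Icc, Finset.coe_filter, Finset.mem_Ioc,
        Set.mem_ofPred_eq]
      constructor
      · rintro ⟨h6, h7, h8⟩
        exact ⟨⟨by omega, h8⟩, h6⟩
      · rintro ⟨⟨h7, h8⟩, h6⟩
        exact ⟨h6, by omega, h8⟩
    rw [h5]
    linarith

/-- The positive integers `n` such that `n ^ α` is not a rational linear combination of the
powers `m ^ α` with `1 ≤ m < n`. -/
def NewPowers (α : ℝ) : Set ℕ :=
  {n | 0 < n ∧ (n : ℝ) ^ α ∉ Submodule.span ℚ ((fun m : ℕ => (m : ℝ) ^ α) '' Set.Ico 1 n)}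

theorem mul_closed (α : ℝ) (k n : ℕ) (hk : 0 < k) (hn : 0 < n) (h : n ∉ NewPowers α) :
    k * n ∉ NewPowers α := by
  rintro ⟨_, h2⟩
  apply h2
  have h1 : (n : ℝ) ^ α ∈ Submodule.span ℚ ((fun m : ℕ => (m : ℝ) ^ α) '' Set.Ico 1 n) := by
    by_contra hcon
    exact h ⟨hn, hcon⟩
  have h3 := Submodule.mem_map_of_mem (f := LinearMap.mulLeft ℚ ((k : ℝ) ^ α)) h1
  rw [Submodule.map_span] at h3
  have h4 : (((k * n : ℕ) : ℝ)) ^ α = LinearMap.mulLeft ℚ ((k : ℝ) ^ α) ((n : ℝ) ^ α) := by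
    rw [LinearMap.mulLeft_apply]
    push_cast
    rw [Real.mul_rpow (by positivity) (by positivity)]
  rw [h4]
  refine Submodule.span_mono ?_ h3
  rintro x ⟨_, ⟨m, ⟨hm1, hm2⟩, rfl⟩, rfl⟩
  refine ⟨k * m, ⟨?_, ?_⟩, ?_⟩
  · exact Nat.mul_pos hk hm1
  · exact Nat.mul_lt_mul_of_pos_left hm2 hk
  · rw [LinearMap.mulLeft_apply]
    show (((k * m : ℕ) : ℝ)) ^ α = _
    push_cast
    rw [Real.mul_rpow (by positivity) (by positivity)]

theorem new_indep (α : ℝ) :
    LinearIndependent ℚ (fun n : NewPowers α => ((n : ℕ) : ℝ) ^ α) := by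
  classical
  rw [linearIndependent_iff']
  intro T g hsum
  by_contra hcon
  push Not at hcon
  obtain ⟨i, hi, hgi⟩ := hcon
  have hne : (T.filter (fun i => g i ≠ 0)).Nonempty := ⟨i, Finset.mem_filter.2 ⟨hi, hgi⟩⟩
  obtain ⟨j, hj, hmax⟩ := Finset.exists_max_image _ (fun i : NewPowers α => (i : ℕ)) hne
  rw [Finset.mem_filter] at hj
  apply j.2.2
  have h1 : g j • (((j : ℕ) : ℝ) ^ α) = - ∑ i ∈ T.erase j, g i • (((i : ℕ) : ℝ) ^ α) := by
    rw [← Finset.add_sum_erase T _ hj.1] at hsum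
    exact eq_neg_of_add_eq_zero_left hsum
  have h2 : (((j : ℕ) : ℝ) ^ α)
      = (g j)⁻¹ • (- ∑ i ∈ T.erase j, g i • (((i : ℕ) : ℝ) ^ α)) := by
    rw [← h1, smul_smul, inv_mul_cancel₀ hj.2, one_smul]
  rw [h2]
  apply Submodule.smul_mem
  apply Submodule.neg_mem
  apply Submodule.sum_mem
  intro i hi
  rw [Finset.mem_erase] at hi
  by_cases h0 : g i = 0
  · rw [h0, zero_smul]; exact Submodule.zero_mem _
  · apply Submodule.smul_mem
    apply Submodule.subset_span
    refine ⟨i, ⟨i.2.1, ?_⟩, rfl⟩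
    have h3 := hmax i (Finset.mem_filter.2 ⟨hi.2, h0⟩)
    have h4 : (i : ℕ) ≠ j := fun h => hi.1 (Subtype.ext h)
    exact lt_of_le_of_ne h3 h4

theorem new_span (α : ℝ) (M : ℕ) :
    Submodule.span ℚ ((fun m : ℕ => (m : ℝ) ^ α) '' Set.Icc 1 M) ≤
      Submodule.span ℚ ((fun m : ℕ => (m : ℝ) ^ α) '' (NewPowers α ∩ Set.Icc 1 M)) := by
  induction M with
  | zero =>
    rw [Submodule.span_le]
    rintro x ⟨m, ⟨h1, h2⟩, rfl⟩
    omega
  | succ M ih =>
    have hmono : Submodule.span ℚ ((fun m : ℕ => (m : ℝ) ^ α) '' (NewPowers α ∩ Set.Icc 1 M)) ≤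
        Submodule.span ℚ ((fun m : ℕ => (m : ℝ) ^ α) '' (NewPowers α ∩ Set.Icc 1 (M + 1))) := by
      apply Submodule.span_mono
      apply Set.image_mono
      rintro n ⟨h1, h2, h3⟩
      exact ⟨h1, h2, by omega⟩
    rw [Submodule.span_le]
    rintro x ⟨m, ⟨h1, h2⟩, rfl⟩
    rcases Nat.lt_or_ge m (M + 1) with h3 | h3
    · exact hmono (ih (Submodule.subset_span ⟨m, ⟨h1, by omega⟩, rfl⟩))
    · have hm : m = M + 1 := by omega
      subst hm
      by_cases h4 : (M + 1) ∈ NewPowers α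
      · exact Submodule.subset_span ⟨M + 1, ⟨h4, h1, le_refl _⟩, rfl⟩
      · have h5 : ((M + 1 : ℕ) : ℝ) ^ α ∈
            Submodule.span ℚ ((fun m : ℕ => (m : ℝ) ^ α) '' Set.Ico 1 (M + 1)) := by
          by_contra hcon
          exact h4 ⟨by omega, hcon⟩
        have h6 : Set.Ico 1 (M + 1) = Set.Icc 1 M := by
          ext n
          simp only [Set.mem_Ico, Set.mem_Icc]
          omega
        rw [h6] at h5
        exact hmono (ih h5)

theorem new_optimal (α : ℝ) (S : Set ℕ) (hS : ∀ n ∈ S, 0 < n)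
    (hli : LinearIndependent ℚ (fun n : S => ((n : ℕ) : ℝ) ^ α)) (M : ℕ) :
    (S ∩ Set.Icc 1 M).ncard ≤ (NewPowers α ∩ Set.Icc 1 M).ncard := by
  classical
  set f : ℕ → ℝ := fun m => (m : ℝ) ^ α with hf
  have hfin1 : (S ∩ Set.Icc 1 M).Finite := (Set.finite_Icc 1 M).subset Set.inter_subset_right
  have hfin2 : (NewPowers α ∩ Set.Icc 1 M).Finite :=
    (Set.finite_Icc 1 M).subset Set.inter_subset_right
  have : Fintype (S ∩ Set.Icc 1 M : Set ℕ) := hfin1.fintype
  have hli2 : LinearIndependent ℚ (fun n : (S ∩ Set.Icc 1 M : Set ℕ) => f n) :=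
    hli.comp (fun n : (S ∩ Set.Icc 1 M : Set ℕ) => (⟨n.1, n.2.1⟩ : S))
      (fun x y h => Subtype.ext (congrArg (fun z : S => (z : ℕ)) h))
  have h1 := finrank_span_eq_card hli2
  have hle : Submodule.span ℚ (Set.range (fun n : (S ∩ Set.Icc 1 M : Set ℕ) => f n)) ≤
      Submodule.span ℚ (f '' (NewPowers α ∩ Set.Icc 1 M)) := by
    refine le_trans (Submodule.span_mono ?_) (new_span α M)
    rintro x ⟨n, rfl⟩
    exact ⟨n.1, n.2.2, rfl⟩
  have hfin3 : (f '' (NewPowers α ∩ Set.Icc 1 M)).Finite := hfin2.image f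
  have : FiniteDimensional ℚ (Submodule.span ℚ (f '' (NewPowers α ∩ Set.Icc 1 M))) :=
    FiniteDimensional.span_of_finite ℚ hfin3
  have h2 := Submodule.finrank_mono hle
  have : Fintype (f '' (NewPowers α ∩ Set.Icc 1 M)) := hfin3.fintype
  have h3 := finrank_span_le_card (R := ℚ) (f '' (NewPowers α ∩ Set.Icc 1 M))
  have h4 : (f '' (NewPowers α ∩ Set.Icc 1 M)).toFinset.card ≤
      (NewPowers α ∩ Set.Icc 1 M).ncard := by
    rw [← Set.ncard_eq_toFinset_card']
    exact Set.ncard_image_le hfin2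
  have h5 : (S ∩ Set.Icc 1 M).ncard = Fintype.card (S ∩ Set.Icc 1 M : Set ℕ) := by
    rw [← Nat.card_coe_set_eq, Nat.card_eq_fintype_card]
  rw [h5, ← h1]
  exact h2.trans (h3.trans h4)

theorem new_eq (a b : ℕ) (hb : 2 ≤ b) (hab : Nat.Coprime a b) :
    NewPowers ((a : ℝ) / b) = PowerFree b := by
  have hsub : NewPowers ((a : ℝ) / b) ⊆ PowerFree b := by
    rintro n hn
    by_contra hcon
    obtain ⟨k, f, hk, hf, hkf⟩ := exists_kernel b hb n hn.1
    have hne : f ≠ n := by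
      rintro rfl
      exact hcon hf
    have hfn : f ≤ n := by
      rw [hkf]; exact Nat.le_mul_of_pos_left _ (by positivity)
    apply hn.2
    have h1 : (n : ℝ) ^ ((a : ℝ) / b) = ((k : ℚ) ^ a) • ((f : ℝ) ^ ((a : ℝ) / b)) := by
      have hb0 : (b : ℝ) ≠ 0 := by positivity
      rw [hkf, Rat.smul_def]
      push_cast
      rw [Real.mul_rpow (by positivity) (by positivity), ← Real.rpow_natCast (k : ℝ) b,
        ← Real.rpow_mul (Nat.cast_nonneg k), mul_div_cancel₀ _ hb0, Real.rpow_natCast]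
    rw [h1]
    apply Submodule.smul_mem
    exact Submodule.subset_span ⟨f, ⟨hf.1, lt_of_le_of_ne hfn hne⟩, rfl⟩
  apply Set.Subset.antisymm hsub
  intro n hn
  have h1 := new_optimal ((a : ℝ) / b) (PowerFree b) (fun n hn => hn.1)
    (indep_of_classes a b hb hab _ (fun n hn => hn.1) (powerFree_classes b hb)) n
  have h2 : NewPowers ((a : ℝ) / b) ∩ Set.Icc 1 n ⊆ PowerFree b ∩ Set.Icc 1 n :=
    Set.inter_subset_inter_left _ hsub
  have h3 := Set.eq_of_subset_of_ncard_le h2 h1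
    ((Set.finite_Icc 1 n).subset Set.inter_subset_right)
  have h4 : n ∈ PowerFree b ∩ Set.Icc 1 n := ⟨hn, hn.1, le_refl n⟩
  rw [← h3] at h4
  exact h4.1

/-- Sieve with moduli of convergent reciprocal sum: the positive integers divisible by no
element of `G` contain a positive proportion of the integers up to every large `M`. -/
theorem sieve (G : Set ℕ) (hG : ∀ g ∈ G, 2 ≤ g)
    (hsum : Summable (fun g : G => (1 : ℝ) / ((g : ℕ) : ℝ))) :
    ∃ c : ℝ, 0 < c ∧ ∃ M₀ : ℕ, ∀ M ≥ M₀,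
      c * M ≤ (({n : ℕ | 0 < n ∧ ∀ g ∈ G, ¬ g ∣ n} ∩ Set.Icc 1 M).ncard : ℝ) := by
  classical
  have hvan := summable_iff_vanishing_norm.1 hsum
  obtain ⟨F, hF⟩ := hvan (1 / 4) (by norm_num)
  set L : ℕ := ∏ g ∈ F, (g : ℕ) with hL
  have hL0 : 0 < L := Finset.prod_pos (fun g _ => by have := hG g g.2; omega)
  have hLr : (0 : ℝ) < L := by exact_mod_cast hL0
  obtain ⟨F', hF'⟩ := hvan (1 / (8 * L)) (by positivity)
  refine ⟨1 / (8 * L), by positivity, 2 * L * (1 + F'.card), fun M hM => ?_⟩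
  have hMpos : 0 < M := by
    have : 0 < 2 * L * (1 + F'.card) := by positivity
    omega
  have hMr : (0 : ℝ) < M := by exact_mod_cast hMpos
  set N : ℕ := M / L with hN
  have hfin : {g : G | (g : ℕ) ≤ M}.Finite := by
    apply Set.Finite.of_finite_image (f := fun g : G => (g : ℕ))
    · apply (Set.finite_Iic M).subset
      rintro x ⟨g, hg, rfl⟩
      exact hg
    · intro x _ y _ h
      exact Subtype.ext h
  set GM : Finset G := hfin.toFinset with hGM
  have hmemGM : ∀ g : G, g ∈ GM ↔ (g : ℕ) ≤ M := fun g => by simp [hGM]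
  -- bad indices
  set bad : Finset ℕ := (GM \ F).biUnion
    (fun g => (Finset.range N).filter (fun j => (g : ℕ) ∣ j * L + 1)) with hbad
  have hNM : ∀ j < N, j * L + 1 ≤ M := by
    intro j hj
    have h1 : (j + 1) * L ≤ N * L := Nat.mul_le_mul_right L hj
    have h2 : N * L ≤ M := Nat.div_mul_le_self M L
    have h3 : (j + 1) * L = j * L + L := by ring
    omega
  have hgood : ∀ j ∈ Finset.range N \ bad, ∀ g ∈ G, ¬ g ∣ j * L + 1 := by
    intro j hj g hg hdvd
    rw [Finset.mem_sdiff, Finset.mem_range] at hj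
    have hgM : g ≤ M := (Nat.le_of_dvd (by omega) hdvd).trans (hNM j hj.1)
    by_cases hgF : (⟨g, hg⟩ : G) ∈ F
    · have h1 : g ∣ L := Finset.dvd_prod_of_mem (fun g : G => (g : ℕ)) hgF
      have h2 : g ∣ 1 := (Nat.dvd_add_right (h1.mul_left j)).1 hdvd
      have h3 := Nat.dvd_one.1 h2
      have h4 := hG g hg
      omega
    · apply hj.2
      rw [hbad, Finset.mem_biUnion]
      exact ⟨⟨g, hg⟩, Finset.mem_sdiff.2 ⟨(hmemGM _).2 hgM, hgF⟩,
        Finset.mem_filter.2 ⟨Finset.mem_range.2 hj.1, hdvd⟩⟩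
  have hcount : ∀ g : G, (((Finset.range N).filter (fun j => (g : ℕ) ∣ j * L + 1)).card : ℝ)
      ≤ (N : ℝ) * (1 / ((g : ℕ) : ℝ)) + 1 := by
    intro g
    have hg2 := hG g g.2
    have h1 : ((Finset.range N).filter (fun j => (g : ℕ) ∣ j * L + 1)).card
        ≤ (Finset.range (N / (g : ℕ) + 1)).card := by
      apply Finset.card_le_card_of_injOn (fun j => j / (g : ℕ))
      · intro j hj
        rw [Finset.mem_coe, Finset.mem_filter, Finset.mem_range] at hj
        rw [Finset.mem_coe, Finset.mem_range]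
        exact Nat.lt_succ_of_le (Nat.div_le_div_right hj.1.le)
      · intro i hi j hj hij
        rw [Finset.mem_coe, Finset.mem_filter] at hi hj
        have hcop : Nat.Coprime (g : ℕ) L := by
          rw [Nat.coprime_iff_gcd_eq_one]
          have h2 : Nat.gcd g L ∣ i * L + 1 := (Nat.gcd_dvd_left _ _).trans hi.2
          have h3 : Nat.gcd g L ∣ i * L := (Nat.gcd_dvd_right _ _).mul_left i
          exact Nat.dvd_one.1 ((Nat.dvd_add_right h3).1 h2)
        have hmod : i ≡ j [MOD (g : ℕ)] := by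
          have h4 : i * L + 1 ≡ j * L + 1 [MOD (g : ℕ)] :=
            ((Nat.modEq_zero_iff_dvd).2 hi.2).trans ((Nat.modEq_zero_iff_dvd).2 hj.2).symm
          have h5 : i * L ≡ j * L [MOD (g : ℕ)] := Nat.ModEq.add_right_cancel' 1 h4
          exact Nat.ModEq.cancel_right_of_coprime hcop h5
        have h6 := Nat.div_add_mod i (g : ℕ)
        have h7 := Nat.div_add_mod j (g : ℕ)
        have h8 : i % (g : ℕ) = j % (g : ℕ) := hmod
        have h9 : i / (g : ℕ) = j / (g : ℕ) := hij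
        rw [← h6, ← h7, h8, h9]
    rw [Finset.card_range] at h1
    have h2 : (((N / (g : ℕ) : ℕ)) : ℝ) ≤ (N : ℝ) * (1 / ((g : ℕ) : ℝ)) := by
      rw [mul_one_div]; exact Nat.cast_div_le
    have h3 : (((Finset.range N).filter (fun j => (g : ℕ) ∣ j * L + 1)).card : ℝ)
        ≤ ((N / (g : ℕ) : ℕ) : ℝ) + 1 := by exact_mod_cast h1
    linarith
  have hsum0 : ∀ t : Finset G, 0 ≤ ∑ g ∈ t, (1 : ℝ) / ((g : ℕ) : ℝ) := fun t =>
    Finset.sum_nonneg (fun g _ => by positivity)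
  have hbadcard : (bad.card : ℝ) ≤ (N : ℝ) * (1 / 4) + GM.card := by
    have h1 : (bad.card : ℝ) ≤ ∑ g ∈ GM \ F,
        (((Finset.range N).filter (fun j => (g : ℕ) ∣ j * L + 1)).card : ℝ) := by
      exact_mod_cast Finset.card_biUnion_le
    have h2 : ∑ g ∈ GM \ F,
        (((Finset.range N).filter (fun j => (g : ℕ) ∣ j * L + 1)).card : ℝ)
        ≤ ∑ g ∈ GM \ F, ((N : ℝ) * (1 / ((g : ℕ) : ℝ)) + 1) :=
      Finset.sum_le_sum (fun g _ => hcount g)
    have h3 : ∑ g ∈ GM \ F, ((N : ℝ) * (1 / ((g : ℕ) : ℝ)) + 1)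
        = (N : ℝ) * (∑ g ∈ GM \ F, (1 / ((g : ℕ) : ℝ))) + (GM \ F).card := by
      rw [Finset.sum_add_distrib, ← Finset.mul_sum]
      simp
    have h4 := hF (GM \ F) Finset.sdiff_disjoint
    rw [Real.norm_of_nonneg (hsum0 _)] at h4
    have h5 : ((GM \ F).card : ℝ) ≤ GM.card := by
      exact_mod_cast Finset.card_le_card Finset.sdiff_subset
    have h6 : (N : ℝ) * (∑ g ∈ GM \ F, (1 / ((g : ℕ) : ℝ))) ≤ (N : ℝ) * (1 / 4) := by
      gcongr
    linarith
  have hGMcard : (GM.card : ℝ) ≤ F'.card + M * (1 / (8 * L)) := by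
    have h1 : GM.card ≤ F'.card + (GM \ F').card := by
      have := Finset.card_le_card (Finset.subset_union_left (s₁ := GM) (s₂ := F'))
      have h2 : (GM ∪ F').card = (GM \ F').card + F'.card := by
        rw [← Finset.card_union_of_disjoint Finset.sdiff_disjoint, Finset.sdiff_union_self_eq_union]
      omega
    have h2 := hF' (GM \ F') Finset.sdiff_disjoint
    rw [Real.norm_of_nonneg (hsum0 _)] at h2
    have h3 : ((GM \ F').card : ℝ) * (1 / M) ≤ ∑ g ∈ GM \ F', (1 : ℝ) / ((g : ℕ) : ℝ) := by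
      rw [← nsmul_eq_mul, ← Finset.sum_const]
      apply Finset.sum_le_sum
      intro g hg
      have h4 : (g : ℕ) ≤ M := (hmemGM g).1 (Finset.mem_sdiff.1 hg).1
      have h5 := hG g g.2
      have h6 : (0 : ℝ) < ((g : ℕ) : ℝ) := by exact_mod_cast (show 0 < (g : ℕ) by omega)
      exact one_div_le_one_div_of_le h6 (by exact_mod_cast h4)
    have h4 : ((GM \ F').card : ℝ) ≤ M * (1 / (8 * L)) := by
      have h5 : ((GM \ F').card : ℝ) * (1 / M) ≤ 1 / (8 * L) := h3.trans h2.le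
      rw [mul_one_div, div_le_iff₀ hMr] at h5
      linarith
    have h5 : (GM.card : ℝ) ≤ F'.card + (GM \ F').card := by exact_mod_cast h1
    linarith
  -- conclusion
  have hinj : ((Finset.range N \ bad).card : ℝ)
      ≤ (({n : ℕ | 0 < n ∧ ∀ g ∈ G, ¬ g ∣ n} ∩ Set.Icc 1 M).ncard : ℝ) := by
    have hle : ((Finset.range N \ bad : Finset ℕ) : Set ℕ).ncard
        ≤ ({n : ℕ | 0 < n ∧ ∀ g ∈ G, ¬ g ∣ n} ∩ Set.Icc 1 M).ncard := by
      apply Set.ncard_le_ncard_of_injOn (fun j => j * L + 1) _ _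
        ((Set.finite_Icc 1 M).subset Set.inter_subset_right)
      · intro j hj
        have hj' := hgood j hj
        have hj2 : j < N := Finset.mem_range.1 (Finset.mem_sdiff.1 hj).1
        exact ⟨⟨Nat.succ_pos _, hj'⟩, Nat.succ_le_succ (Nat.zero_le _), hNM j hj2⟩
      · intro i _ j _ hij
        have h1 : i * L + 1 = j * L + 1 := hij
        exact Nat.eq_of_mul_eq_mul_right hL0 (by omega)
    rw [Set.ncard_coe_finset] at hle
    exact Nat.cast_le.2 hle
  have hcard : (N : ℝ) - bad.card ≤ ((Finset.range N \ bad).card : ℝ) := by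
    have h1 : (Finset.range N).card ≤ (Finset.range N \ bad).card + bad.card := by
      have := Finset.card_le_card_sdiff_add_card (s := Finset.range N) (t := bad)
      exact this
    rw [Finset.card_range] at h1
    have h2 : (N : ℝ) ≤ (Finset.range N \ bad).card + bad.card := by exact_mod_cast h1
    linarith
  have hNlow : (M : ℝ) / L - 1 ≤ N := by
    have h1 : M < (N + 1) * L := by
      have := Nat.lt_div_mul_add hL0 (a := M)
      rw [hN]
      nlinarith
    have h2 : (M : ℝ) < (N + 1) * L := by exact_mod_cast h1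
    rw [sub_le_iff_le_add, div_le_iff₀ hLr]
    exact h2.le
  have hMlow : (1 : ℝ) + F'.card ≤ M / L / 2 := by
    have h1 : (2 : ℝ) * L * (1 + F'.card) ≤ M := by exact_mod_cast hM
    rw [div_div, le_div_iff₀ (by positivity)]
    linarith
  have e1 : (M : ℝ) * (1 / (8 * L)) = M / L / 8 := by field_simp
  have e2 : 1 / (8 * (L : ℝ)) * M = M / L / 8 := by field_simp
  rw [e1] at hGMcard
  rw [e2]
  set x : ℝ := (M : ℝ) / L with hx
  linarith

/-- The minimal elements, for divisibility, of the complement of `NewPowers α`. -/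
def Generators (α : ℝ) : Set ℕ :=
  {g | 0 < g ∧ g ∉ NewPowers α ∧ ∀ d : ℕ, d ∣ g → d ≠ g → d ∈ NewPowers α}

theorem one_mem (α : ℝ) : 1 ∈ NewPowers α := by
  refine ⟨one_pos, ?_⟩
  simp

theorem exists_generator (α : ℝ) (n : ℕ) (hn : 0 < n) (h : n ∉ NewPowers α) :
    ∃ g ∈ Generators α, g ∣ n := by
  induction n using Nat.strong_induction_on with
  | _ n ih =>
    by_cases hg : ∀ d : ℕ, d ∣ n → d ≠ n → d ∈ NewPowers α
    · exact ⟨n, ⟨hn, h, hg⟩, dvd_refl n⟩
    · push Not at hg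
      obtain ⟨d, hd, hne, hdn⟩ := hg
      have hd0 : 0 < d := Nat.pos_of_dvd_of_pos hd hn
      have hlt : d < n := lt_of_le_of_ne (Nat.le_of_dvd hn hd) hne
      obtain ⟨g, hg, hgd⟩ := ih d hlt hd0 hdn
      exact ⟨g, hg, hgd.trans hd⟩

theorem criterion (α : ℝ)
    (hsum : Summable (fun g : Generators α => (1 : ℝ) / ((g : ℕ) : ℝ))) :
    ∃ c : ℝ, 0 < c ∧ ∃ M₀ : ℕ, ∀ M ≥ M₀,
      c * M ≤ ((NewPowers α ∩ Set.Icc 1 M).ncard : ℝ) := by
  obtain ⟨c, hc, M₀, h⟩ := sieve (Generators α) (by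
    rintro g ⟨hg0, hg, _⟩
    have : g ≠ 1 := by
      rintro rfl
      exact hg (one_mem α)
    omega) hsum
  refine ⟨c, hc, M₀, fun M hM => (h M hM).trans ?_⟩
  have h1 : ({n : ℕ | 0 < n ∧ ∀ g ∈ Generators α, ¬ g ∣ n} ∩ Set.Icc 1 M) ⊆
      NewPowers α ∩ Set.Icc 1 M := by
    rintro n ⟨⟨hn, hn2⟩, hn3⟩
    refine ⟨?_, hn3⟩
    by_contra hcon
    obtain ⟨g, hg, hgn⟩ := exists_generator α n hn hcon
    exact hn2 g hg hgn
  exact_mod_cast Set.ncard_le_ncard h1 ((Set.finite_Icc 1 M).subset Set.inter_subset_right)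

/-- (1) For every real `α` the set `NewPowers α` gives `ℚ`-linearly independent powers
`n ^ α`, has for every `M` the largest possible number of elements up to `M` among the sets of
positive integers with this property, and its complement is closed under multiplication by
positive integers; if the reciprocals of the minimal elements of the complement have a
convergent sum, `NewPowers α` has positive lower density. (2) For a rational `α = a / b` in
lowest terms, `b ≥ 2`, it is the set of the `b`-th-power-free integers, which contains at least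
`M / 4` of the integers from `1` to `M`; and a set of positive integers gives independent powers
iff no two of its elements differ by the `b`-th power of a rational number. -/
theorem result :
    (∀ α : ℝ,
      LinearIndependent ℚ (fun n : NewPowers α => ((n : ℕ) : ℝ) ^ α) ∧
      (∀ S : Set ℕ, (∀ n ∈ S, 0 < n) →
        LinearIndependent ℚ (fun n : S => ((n : ℕ) : ℝ) ^ α) →
        ∀ M : ℕ, (S ∩ Set.Icc 1 M).ncard ≤ (NewPowers α ∩ Set.Icc 1 M).ncard) ∧
      (∀ k n : ℕ, 0 < k → 0 < n → n ∉ NewPowers α → k * n ∉ NewPowers α) ∧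
      (Summable (fun g : Generators α => (1 : ℝ) / ((g : ℕ) : ℝ)) →
        ∃ c : ℝ, 0 < c ∧ ∃ M₀ : ℕ, ∀ M ≥ M₀,
          c * M ≤ ((NewPowers α ∩ Set.Icc 1 M).ncard : ℝ))) ∧
    (∀ a b : ℕ, 2 ≤ b → Nat.Coprime a b →
      NewPowers ((a : ℝ) / b) = {n : ℕ | 0 < n ∧ ∀ d : ℕ, d ^ b ∣ n → d = 1} ∧
      (∀ M : ℕ, (1 / 4 : ℝ) * M ≤ ((NewPowers ((a : ℝ) / b) ∩ Set.Icc 1 M).ncard : ℝ)) ∧
      (∀ S : Set ℕ, (∀ n ∈ S, 0 < n) →
        (LinearIndependent ℚ (fun n : S => ((n : ℕ) : ℝ) ^ ((a : ℝ) / b)) ↔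
          ∀ m ∈ S, ∀ n ∈ S, (∃ u v : ℕ, 0 < u ∧ 0 < v ∧ u ^ b * m = v ^ b * n) → m = n))) := by
  refine ⟨fun α => ⟨new_indep α, fun S hS hli M => new_optimal α S hS hli M,
    fun k n hk hn h => mul_closed α k n hk hn h, criterion α⟩,
    fun a b hb hab => ⟨new_eq a b hb hab, ?_,
    fun S hS => ⟨classes_of_indep a b hb S hS, indep_of_classes a b hb hab S hS⟩⟩⟩
  rw [new_eq a b hb hab]
  exact density b hb

end Pool.Agent.Results.MP_ff1ab7_nt.MaximalIndependentPowers
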